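import Mathlib

/-!
# Lattices generated by a two-element chain and one more element
-/

set_option autoImplicit false

namespace Pool.Agent.Helper73.OWN

/-- The sublattice generated by a chain of length two and one more element has at most nine
elements. -/
theorem closed9 {L : Type*} [Lattice L] (a b c p q r s u v : L) (hab : a ≤ b) (hp : a ⊓ c = p)
    (hq : b ⊓ c = q) (hr : a ⊔ c = r) (hs : b ⊔ c = s) (hu : a ⊔ q = u) (hv : b ⊓ r = v) :
    SupClosed ({a, b, c, p, q, r, s, u, v} : Set L) ∧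
      InfClosed ({a, b, c, p, q, r, s, u, v} : Set L) := by
  have o_pa : p ≤ a := hp ▸ inf_le_left
  have o_pc : p ≤ c := hp ▸ inf_le_right
  have o_qb : q ≤ b := hq ▸ inf_le_left
  have o_qc : q ≤ c := hq ▸ inf_le_right
  have o_ar : a ≤ r := hr ▸ le_sup_left
  have o_cr : c ≤ r := hr ▸ le_sup_right
  have o_bs : b ≤ s := hs ▸ le_sup_left
  have o_cs : c ≤ s := hs ▸ le_sup_right
  have o_au : a ≤ u := hu ▸ le_sup_left
  have o_qu : q ≤ u := hu ▸ le_sup_right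
  have o_vb : v ≤ b := hv ▸ inf_le_left
  have o_vr : v ≤ r := hv ▸ inf_le_right
  have o_pq : p ≤ q := hq ▸ le_inf (o_pa.trans hab) o_pc
  have o_rs : r ≤ s := hr ▸ sup_le (hab.trans o_bs) o_cs
  have o_uv : u ≤ v := hv ▸ (hu ▸ sup_le (le_inf hab o_ar) (le_inf o_qb (o_qc.trans o_cr)))
  have o_ab : a ≤ b := hab
  have o_as : a ≤ s := o_ab.trans o_bs
  have o_av : a ≤ v := o_au.trans o_uv
  have o_pb : p ≤ b := o_pa.trans o_ab
  have o_pr : p ≤ r := o_pa.trans o_ar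
  have o_ps : p ≤ s := o_pa.trans o_as
  have o_pu : p ≤ u := o_pa.trans o_au
  have o_pv : p ≤ v := o_pa.trans o_av
  have o_qr : q ≤ r := o_qc.trans o_cr
  have o_qs : q ≤ s := o_qb.trans o_bs
  have o_qv : q ≤ v := o_qu.trans o_uv
  have o_ub : u ≤ b := o_uv.trans o_vb
  have o_ur : u ≤ r := o_uv.trans o_vr
  have o_us : u ≤ s := o_ub.trans o_bs
  have o_vs : v ≤ s := o_vb.trans o_bs
  have j_ab : a ⊔ b = b := sup_eq_right.2 o_ab
  have j_ba : b ⊔ a = b := sup_eq_left.2 o_ab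
  have m_ab : a ⊓ b = a := inf_eq_left.2 o_ab
  have m_ba : b ⊓ a = a := inf_eq_right.2 o_ab
  have j_ar : a ⊔ r = r := sup_eq_right.2 o_ar
  have j_ra : r ⊔ a = r := sup_eq_left.2 o_ar
  have m_ar : a ⊓ r = a := inf_eq_left.2 o_ar
  have m_ra : r ⊓ a = a := inf_eq_right.2 o_ar
  have j_as : a ⊔ s = s := sup_eq_right.2 o_as
  have j_sa : s ⊔ a = s := sup_eq_left.2 o_as
  have m_as : a ⊓ s = a := inf_eq_left.2 o_as
  have m_sa : s ⊓ a = a := inf_eq_right.2 o_as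
  have j_au : a ⊔ u = u := sup_eq_right.2 o_au
  have j_ua : u ⊔ a = u := sup_eq_left.2 o_au
  have m_au : a ⊓ u = a := inf_eq_left.2 o_au
  have m_ua : u ⊓ a = a := inf_eq_right.2 o_au
  have j_av : a ⊔ v = v := sup_eq_right.2 o_av
  have j_va : v ⊔ a = v := sup_eq_left.2 o_av
  have m_av : a ⊓ v = a := inf_eq_left.2 o_av
  have m_va : v ⊓ a = a := inf_eq_right.2 o_av
  have j_bs : b ⊔ s = s := sup_eq_right.2 o_bs
  have j_sb : s ⊔ b = s := sup_eq_left.2 o_bs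
  have m_bs : b ⊓ s = b := inf_eq_left.2 o_bs
  have m_sb : s ⊓ b = b := inf_eq_right.2 o_bs
  have j_cr : c ⊔ r = r := sup_eq_right.2 o_cr
  have j_rc : r ⊔ c = r := sup_eq_left.2 o_cr
  have m_cr : c ⊓ r = c := inf_eq_left.2 o_cr
  have m_rc : r ⊓ c = c := inf_eq_right.2 o_cr
  have j_cs : c ⊔ s = s := sup_eq_right.2 o_cs
  have j_sc : s ⊔ c = s := sup_eq_left.2 o_cs
  have m_cs : c ⊓ s = c := inf_eq_left.2 o_cs
  have m_sc : s ⊓ c = c := inf_eq_right.2 o_cs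
  have j_pa : p ⊔ a = a := sup_eq_right.2 o_pa
  have j_ap : a ⊔ p = a := sup_eq_left.2 o_pa
  have m_pa : p ⊓ a = p := inf_eq_left.2 o_pa
  have m_ap : a ⊓ p = p := inf_eq_right.2 o_pa
  have j_pb : p ⊔ b = b := sup_eq_right.2 o_pb
  have j_bp : b ⊔ p = b := sup_eq_left.2 o_pb
  have m_pb : p ⊓ b = p := inf_eq_left.2 o_pb
  have m_bp : b ⊓ p = p := inf_eq_right.2 o_pb
  have j_pc : p ⊔ c = c := sup_eq_right.2 o_pc
  have j_cp : c ⊔ p = c := sup_eq_left.2 o_pc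
  have m_pc : p ⊓ c = p := inf_eq_left.2 o_pc
  have m_cp : c ⊓ p = p := inf_eq_right.2 o_pc
  have j_pq : p ⊔ q = q := sup_eq_right.2 o_pq
  have j_qp : q ⊔ p = q := sup_eq_left.2 o_pq
  have m_pq : p ⊓ q = p := inf_eq_left.2 o_pq
  have m_qp : q ⊓ p = p := inf_eq_right.2 o_pq
  have j_pr : p ⊔ r = r := sup_eq_right.2 o_pr
  have j_rp : r ⊔ p = r := sup_eq_left.2 o_pr
  have m_pr : p ⊓ r = p := inf_eq_left.2 o_pr
  have m_rp : r ⊓ p = p := inf_eq_right.2 o_pr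
  have j_ps : p ⊔ s = s := sup_eq_right.2 o_ps
  have j_sp : s ⊔ p = s := sup_eq_left.2 o_ps
  have m_ps : p ⊓ s = p := inf_eq_left.2 o_ps
  have m_sp : s ⊓ p = p := inf_eq_right.2 o_ps
  have j_pu : p ⊔ u = u := sup_eq_right.2 o_pu
  have j_up : u ⊔ p = u := sup_eq_left.2 o_pu
  have m_pu : p ⊓ u = p := inf_eq_left.2 o_pu
  have m_up : u ⊓ p = p := inf_eq_right.2 o_pu
  have j_pv : p ⊔ v = v := sup_eq_right.2 o_pv
  have j_vp : v ⊔ p = v := sup_eq_left.2 o_pv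
  have m_pv : p ⊓ v = p := inf_eq_left.2 o_pv
  have m_vp : v ⊓ p = p := inf_eq_right.2 o_pv
  have j_qb : q ⊔ b = b := sup_eq_right.2 o_qb
  have j_bq : b ⊔ q = b := sup_eq_left.2 o_qb
  have m_qb : q ⊓ b = q := inf_eq_left.2 o_qb
  have m_bq : b ⊓ q = q := inf_eq_right.2 o_qb
  have j_qc : q ⊔ c = c := sup_eq_right.2 o_qc
  have j_cq : c ⊔ q = c := sup_eq_left.2 o_qc
  have m_qc : q ⊓ c = q := inf_eq_left.2 o_qc
  have m_cq : c ⊓ q = q := inf_eq_right.2 o_qc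
  have j_qr : q ⊔ r = r := sup_eq_right.2 o_qr
  have j_rq : r ⊔ q = r := sup_eq_left.2 o_qr
  have m_qr : q ⊓ r = q := inf_eq_left.2 o_qr
  have m_rq : r ⊓ q = q := inf_eq_right.2 o_qr
  have j_qs : q ⊔ s = s := sup_eq_right.2 o_qs
  have j_sq : s ⊔ q = s := sup_eq_left.2 o_qs
  have m_qs : q ⊓ s = q := inf_eq_left.2 o_qs
  have m_sq : s ⊓ q = q := inf_eq_right.2 o_qs
  have j_qu : q ⊔ u = u := sup_eq_right.2 o_qu
  have j_uq : u ⊔ q = u := sup_eq_left.2 o_qu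
  have m_qu : q ⊓ u = q := inf_eq_left.2 o_qu
  have m_uq : u ⊓ q = q := inf_eq_right.2 o_qu
  have j_qv : q ⊔ v = v := sup_eq_right.2 o_qv
  have j_vq : v ⊔ q = v := sup_eq_left.2 o_qv
  have m_qv : q ⊓ v = q := inf_eq_left.2 o_qv
  have m_vq : v ⊓ q = q := inf_eq_right.2 o_qv
  have j_rs : r ⊔ s = s := sup_eq_right.2 o_rs
  have j_sr : s ⊔ r = s := sup_eq_left.2 o_rs
  have m_rs : r ⊓ s = r := inf_eq_left.2 o_rs
  have m_sr : s ⊓ r = r := inf_eq_right.2 o_rs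
  have j_ub : u ⊔ b = b := sup_eq_right.2 o_ub
  have j_bu : b ⊔ u = b := sup_eq_left.2 o_ub
  have m_ub : u ⊓ b = u := inf_eq_left.2 o_ub
  have m_bu : b ⊓ u = u := inf_eq_right.2 o_ub
  have j_ur : u ⊔ r = r := sup_eq_right.2 o_ur
  have j_ru : r ⊔ u = r := sup_eq_left.2 o_ur
  have m_ur : u ⊓ r = u := inf_eq_left.2 o_ur
  have m_ru : r ⊓ u = u := inf_eq_right.2 o_ur
  have j_us : u ⊔ s = s := sup_eq_right.2 o_us
  have j_su : s ⊔ u = s := sup_eq_left.2 o_us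
  have m_us : u ⊓ s = u := inf_eq_left.2 o_us
  have m_su : s ⊓ u = u := inf_eq_right.2 o_us
  have j_uv : u ⊔ v = v := sup_eq_right.2 o_uv
  have j_vu : v ⊔ u = v := sup_eq_left.2 o_uv
  have m_uv : u ⊓ v = u := inf_eq_left.2 o_uv
  have m_vu : v ⊓ u = u := inf_eq_right.2 o_uv
  have j_vb : v ⊔ b = b := sup_eq_right.2 o_vb
  have j_bv : b ⊔ v = b := sup_eq_left.2 o_vb
  have m_vb : v ⊓ b = v := inf_eq_left.2 o_vb
  have m_bv : b ⊓ v = v := inf_eq_right.2 o_vb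
  have j_vr : v ⊔ r = r := sup_eq_right.2 o_vr
  have j_rv : r ⊔ v = r := sup_eq_left.2 o_vr
  have m_vr : v ⊓ r = v := inf_eq_left.2 o_vr
  have m_rv : r ⊓ v = v := inf_eq_right.2 o_vr
  have j_vs : v ⊔ s = s := sup_eq_right.2 o_vs
  have j_sv : s ⊔ v = s := sup_eq_left.2 o_vs
  have m_vs : v ⊓ s = v := inf_eq_left.2 o_vs
  have m_sv : s ⊓ v = v := inf_eq_right.2 o_vs
  have j_br : b ⊔ r = s := le_antisymm (sup_le o_bs o_rs) (hs ▸ sup_le_sup_left o_cr b)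
  have j_cu : c ⊔ u = r := le_antisymm (sup_le o_cr o_ur) (hr ▸ (sup_le (o_au.trans le_sup_right) le_sup_left))
  have j_cv : c ⊔ v = r := le_antisymm (sup_le o_cr o_vr) (hr ▸ (sup_le (o_av.trans le_sup_right) le_sup_left))
  have m_aq : a ⊓ q = p := le_antisymm (hp ▸ (le_inf inf_le_left (inf_le_right.trans o_qc))) (le_inf o_pa o_pq)
  have m_cu : c ⊓ u = q := le_antisymm (hq ▸ (le_inf (inf_le_right.trans o_ub) inf_le_left)) (le_inf o_qc o_qu)
  have m_cv : c ⊓ v = q := le_antisymm (hq ▸ (le_inf (inf_le_right.trans o_vb) inf_le_left)) (le_inf o_qc o_qv)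
  have j_rb : r ⊔ b = s := by rw [sup_comm, j_br]
  have j_uc : u ⊔ c = r := by rw [sup_comm, j_cu]
  have j_vc : v ⊔ c = r := by rw [sup_comm, j_cv]
  have j_ca : c ⊔ a = r := by rw [sup_comm, hr]
  have j_cb : c ⊔ b = s := by rw [sup_comm, hs]
  have j_qa : q ⊔ a = u := by rw [sup_comm, hu]
  have m_qa : q ⊓ a = p := by rw [inf_comm, m_aq]
  have m_uc : u ⊓ c = q := by rw [inf_comm, m_cu]
  have m_vc : v ⊓ c = q := by rw [inf_comm, m_cv]
  have m_ca : c ⊓ a = p := by rw [inf_comm, hp]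
  have m_cb : c ⊓ b = q := by rw [inf_comm, hq]
  have m_rb : r ⊓ b = v := by rw [inf_comm, hv]
  constructor
  · intro x hx y hy
    simp only [Set.mem_insert_iff, Set.mem_singleton_iff] at hx hy ⊢
    rcases hx with hx | hx | hx | hx | hx | hx | hx | hx | hx <;>
    rcases hy with hy | hy | hy | hy | hy | hy | hy | hy | hy <;>
    rw [hx, hy] <;> simp only [
      j_ab, j_ba, j_ar, j_ra, j_as, j_sa, j_au, j_ua, j_av, j_va, j_bs, j_sb, j_cr, j_rc, j_cs,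
      j_sc, j_pa, j_ap, j_pb, j_bp, j_pc, j_cp, j_pq, j_qp, j_pr, j_rp, j_ps, j_sp, j_pu, j_up,
      j_pv, j_vp, j_qb, j_bq, j_qc, j_cq, j_qr, j_rq, j_qs, j_sq, j_qu, j_uq, j_qv, j_vq, j_rs,
      j_sr, j_ub, j_bu, j_ur, j_ru, j_us, j_su, j_uv, j_vu, j_vb, j_bv, j_vr, j_rv, j_vs, j_sv,
      hr, hs, hu, j_br, j_cu, j_cv, j_rb, j_uc, j_vc, j_ca, j_cb, j_qa, sup_idem] <;> simp only [true_or, or_true]
  · intro x hx y hy
    simp only [Set.mem_insert_iff, Set.mem_singleton_iff] at hx hy ⊢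
    rcases hx with hx | hx | hx | hx | hx | hx | hx | hx | hx <;>
    rcases hy with hy | hy | hy | hy | hy | hy | hy | hy | hy <;>
    rw [hx, hy] <;> simp only [
      m_ab, m_ba, m_ar, m_ra, m_as, m_sa, m_au, m_ua, m_av, m_va, m_bs, m_sb, m_cr, m_rc, m_cs,
      m_sc, m_pa, m_ap, m_pb, m_bp, m_pc, m_cp, m_pq, m_qp, m_pr, m_rp, m_ps, m_sp, m_pu, m_up,
      m_pv, m_vp, m_qb, m_bq, m_qc, m_cq, m_qr, m_rq, m_qs, m_sq, m_qu, m_uq, m_qv, m_vq, m_rs,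
      m_sr, m_ub, m_bu, m_ur, m_ru, m_us, m_su, m_uv, m_vu, m_vb, m_bv, m_vr, m_rv, m_vs, m_sv,
      hp, hq, hv, m_aq, m_cu, m_cv, m_qa, m_uc, m_vc, m_ca, m_cb, m_rb, inf_idem] <;> simp only [true_or, or_true]

end Pool.Agent.Helper73.OWN
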